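import Pool.Agent.L0h54.VR.Stm

set_option autoImplicit false

/-! Module E2B: all intervals at once for one scale and one length. -/

namespace Pool.Agent.L0h63.VR

open Finset MeasureTheory
open scoped Classical
open Pool.Agent.L0h54.RM (Wn)
open Pool.Agent.L0h54.GC (SW ff es CC VV Mo cheb)
open Pool.Agent.H306R2.RZ (LSB)
open Pool.Agent.L0h54.CL (Qd2 dyadic_max2)
open Pool.Agent.L0h54.VR

lemma Qd2_nonneg (l : ℕ) (F : ℕ → ℝ) : 0 ≤ Qd2 l F :=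
  sum_nonneg fun _ _ => sum_nonneg fun _ _ => sq_nonneg _

/-- an interval is the difference of two initial segments -/
lemma int_le (r : ℕ) (G : ℕ → ℝ) (A A' : ℕ) (hA : 2 ^ r ≤ A) (hAA : A ≤ A')
    (hA' : A' ≤ 2 ^ (r + 1)) :
    |∑ a ∈ Ico A A', G a| ≤ 2 * Real.sqrt (((r:ℝ) + 1) * Qd2 r (fun i => G (2 ^ r + i))) := by
  have hpow : 2 ^ (r + 1) = 2 * 2 ^ r := by rw [pow_succ]; ring
  have h1 : ∀ j, 2 ^ r ≤ j → ∑ a ∈ Ico (2 ^ r) j, G a = ∑ i ∈ range (j - 2 ^ r), G (2 ^ r + i) := by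
    intro j _
    rw [sum_Ico_eq_sum_range]
  have h2 : ∑ a ∈ Ico A A', G a = ∑ i ∈ range (A' - 2 ^ r), G (2 ^ r + i) -
      ∑ i ∈ range (A - 2 ^ r), G (2 ^ r + i) := by
    rw [← h1 A' (hA.trans hAA), ← h1 A hA, ← sum_Ico_consecutive G hA hAA]
    ring
  have h3 := Real.abs_le_sqrt (dyadic_max2 r (fun i => G (2 ^ r + i)) (A' - 2 ^ r) (by omega))
  have h4 := Real.abs_le_sqrt (dyadic_max2 r (fun i => G (2 ^ r + i)) (A - 2 ^ r) (by omega))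
  rw [h2]
  refine (abs_sub _ _).trans ?_
  linarith

theorem t_E2B (hCNT : CNT) (hBLK : BLK) : E2B := by
  intro ε hε
  obtain ⟨C, hC0, hC⟩ := hCNT ε hε
  refine ⟨4 * C, by positivity, ?_⟩
  intro sg hsg r L Q M B τ hB hLS hL hLr hM hτ
  obtain ⟨P, hP⟩ : ∃ P : Finset ℕ, P = (range (Q + 1)).filter (fun l => l.Prime ∧ 3 * 2 ^ r < l) :=
    ⟨_, rfl⟩
  obtain ⟨g, hg⟩ : ∃ g : ℕ → ℝ, ∀ l, g l = Qd2 r (fun i => es (ff sg l) (Wn (2 ^ r + i) L) 2) :=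
    ⟨_, fun _ => rfl⟩
  have hg0 : ∀ l, 0 ≤ g l := fun l => by rw [hg]; exact Qd2_nonneg _ _
  have hL0 : (0:ℝ) < L := by exact_mod_cast hL
  have hN0 : (0:ℝ) < 2 ^ r := by positivity
  obtain ⟨R, hR⟩ : ∃ R : ℝ, R = (r:ℝ) + 1 := ⟨_, rfl⟩
  have hR0 : 0 < R := by rw [hR]; positivity
  obtain ⟨E, hE⟩ : ∃ E : ℝ, E = R * (B * (C * ((2:ℝ) ^ r) ^ (1 + ε) * (L:ℝ) ^ 3)) := ⟨_, rfl⟩
  have hsum : ∑ l ∈ P, g l ≤ E := by
    have h1 := hBLK sg hsg r L Q M B hB hLS hL hLr hM P (fun l hl => by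
      rw [hP, mem_filter, mem_range] at hl
      exact ⟨hl.2.1, hl.2.2, by omega⟩)
    have h2 := hC (2 ^ r) L Nat.one_le_two_pow hL hLr
    push_cast at h2
    rw [← hR] at h1
    simp only [hg]
    refine h1.trans ?_
    rw [hE]
    exact mul_le_mul_of_nonneg_left (mul_le_mul_of_nonneg_left h2 hB) hR0.le
  obtain ⟨T, hT⟩ : ∃ T : ℝ, T = (τ * L * 2 ^ r) ^ 2 / (4 * R) := ⟨_, rfl⟩
  have hT0 : 0 < T := by rw [hT]; positivity
  refine ⟨P.filter (fun l => T < g l), ?_, ?_⟩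
  · refine (cheb P g (fun l _ => hg0 l) T E hT0 hsum).trans (le_of_eq ?_)
    have e1 : ((2:ℝ) ^ r) ^ (1 + ε) = (2 ^ r) ^ 2 * (2:ℝ) ^ ((ε - 1) * r) := by
      rw [← Real.rpow_natCast, ← Real.rpow_mul (by norm_num), ← Real.rpow_natCast,
        ← Real.rpow_mul (by norm_num), ← Real.rpow_add (by norm_num)]
      congr 1
      push_cast
      ring
    rw [hE, hT, e1, ← hR]
    field_simp
  · intro l hl1 hl2 hl3 hl4 A A' hA hAA hA'
    have hlP : l ∈ P := by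
      rw [hP, mem_filter, mem_range]
      exact ⟨by omega, hl1, hl2⟩
    have h1 : g l ≤ T := by
      by_contra h
      exact hl4 (mem_filter.mpr ⟨hlP, not_le.mp h⟩)
    have h2 := int_le r (fun a => es (ff sg l) (Wn a L) 2) A A' hA hAA hA'
    rw [← hg, ← hR] at h2
    refine h2.trans ?_
    have h3 : R * g l ≤ (τ * L * 2 ^ r / 2) ^ 2 := by
      calc R * g l ≤ R * T := mul_le_mul_of_nonneg_left h1 hR0.le
        _ = (τ * L * 2 ^ r / 2) ^ 2 := by rw [hT]; field_simp; ring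
    have h4 : Real.sqrt (R * g l) ≤ τ * L * 2 ^ r / 2 :=
      Real.sqrt_le_iff.mpr ⟨by positivity, h3⟩
    linarith

end Pool.Agent.L0h63.VR
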