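import Pool.Agent.L0h54.VR.Stm

set_option autoImplicit false

/-! Module TRANS: from a grid length to all lengths near it. -/

namespace Pool.Agent.L0h63.VR

open Finset MeasureTheory
open scoped Classical
open Pool.Agent.L0h54.RM (Wn mem_Wn sqf_avg)
open Pool.Agent.L0h54.GC (SW ff es CC VV Mo es' es'_rec es_zero SW_add SW_sq_sum six_pi)
open Pool.Agent.L0h54.VR

/-- the square of the sum over a window -/
lemma sq_window (f : ℕ → ℝ) (a L : ℕ) (hf : ∀ n ∈ Wn a L, f n ^ 2 = 1) :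
    SW f a L ^ 2 = ((Wn a L).card : ℝ) + 2 * es f (Wn a L) 2 := by
  have h0 := es'_rec f (Wn a L) hf 0
  have h1 := es'_rec f (Wn a L) hf 1
  have e0 : es' f (Wn a L) 0 = 0 := rfl
  have e1 : es' f (Wn a L) 1 = 1 := es_zero f _
  have e2 : es' f (Wn a L) 2 = es f (Wn a L) 1 := rfl
  have e3 : es' f (Wn a L) 3 = es f (Wn a L) 2 := rfl
  rw [show (0:ℕ) + 1 = 1 by norm_num, show (0:ℕ) + 2 = 2 by norm_num, e0, e1, e2] at h0
  rw [show (1:ℕ) + 1 = 2 by norm_num, show (1:ℕ) + 2 = 3 by norm_num, e1, e2, e3] at h1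
  have h2 : SW f a L = ∑ n ∈ Wn a L, f n := rfl
  push_cast at h0 h1
  rw [← h2] at h0 h1
  have h3 : es f (Wn a L) 1 = SW f a L := by linarith
  rw [h3] at h1
  linarith

/-- the number of squarefree elements of windows over an interval -/
lemma card_sum (r L A A' : ℕ) (hL : 1 ≤ L) (hLr : L ≤ 2 ^ r) (hA : 2 ^ r ≤ A) (hAA : A ≤ A')
    (hA' : A' ≤ 2 ^ (r + 1)) :
    |∑ a ∈ Ico A A', ((Wn a L).card : ℝ) - 6 / Real.pi ^ 2 * L * ((A':ℝ) - A)| ≤
      6 * 2 ^ r * Real.sqrt L := by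
  have h1 := sqf_avg (2 ^ r) L hL hLr
  push_cast at h1
  have h2 : ∑ a ∈ Ico A A', ((Wn a L).card : ℝ) - 6 / Real.pi ^ 2 * L * ((A':ℝ) - A) =
      ∑ a ∈ Ico A A', (((Wn a L).card : ℝ) - 6 / Real.pi ^ 2 * L) := by
    rw [sum_sub_distrib, sum_const, Nat.card_Ico, nsmul_eq_mul, Nat.cast_sub hAA]
    ring
  rw [h2]
  refine (abs_sum_le_sum_abs _ _).trans (le_trans ?_ h1)
  apply sum_le_sum_of_subset_of_nonneg
  · intro a ha
    rw [mem_Ico] at ha ⊢
    rw [pow_succ] at hA'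
    omega
  · intro a _ _
    positivity

theorem t_TRANS : TRANS := by
  refine ⟨6, by norm_num, ?_⟩
  intro f r s d L L' D τ hf hr hsr hds hL's hLL hLs hLd hD hτ0 hτ1 hV hE A A' hA hAA hA'
  have hpow : 2 ^ (r + 3) = 8 * 2 ^ r := by rw [pow_add]; ring
  have hpow1 : 2 ^ (r + 1) = 2 * 2 ^ r := by rw [pow_succ]; ring
  have hps : 2 ^ (s + 1) ≤ 2 ^ r := Nat.pow_le_pow_right (by norm_num) hsr
  have hps1 : 2 ^ (s + 1) = 2 * 2 ^ s := by rw [pow_succ]; ring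
  have hpsd : 2 ^ (s - d) ≤ 2 ^ s := Nat.pow_le_pow_right (by norm_num) (by omega)
  have hspos : 1 ≤ 2 ^ s := Nat.one_le_two_pow
  have hL'1 : 1 ≤ L' := hspos.trans hL's
  have hp : (2:ℝ) ^ (s - d) = 2 ^ s / 2 ^ d := by
    rw [eq_div_iff (by positivity), ← pow_add]; congr 1; omega
  obtain ⟨N, hN⟩ : ∃ N : ℝ, N = 2 ^ r := ⟨_, rfl⟩
  have hN0 : 0 < N := by rw [hN]; positivity
  have hL'0 : (0:ℝ) < L' := by exact_mod_cast hL'1
  have hL's' : (2:ℝ) ^ s ≤ L' := by exact_mod_cast hL's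
  have hLLr : (L':ℝ) ≤ L := by exact_mod_cast hLL
  have hL0 : (0:ℝ) < L := lt_of_lt_of_le hL'0 hLLr
  have h2s : (0:ℝ) < 2 ^ s := by positivity
  obtain ⟨κ, hκ⟩ : ∃ κ : ℝ, κ = 6 / Real.pi ^ 2 := ⟨_, rfl⟩
  have hκ0 : 0 ≤ κ := by rw [hκ]; positivity
  have hκ1 : κ ≤ 2 / 3 := by rw [hκ]; exact six_pi.2
  have hAr : (A':ℝ) - A ≤ N := by
    have h1 : (A':ℝ) ≤ 2 * 2 ^ r := by
      rw [← pow_succ']; exact_mod_cast hA'
    have h2 : (2:ℝ) ^ r ≤ A := by exact_mod_cast hA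
    rw [hN]; linarith
  have hAr0 : 0 ≤ (A':ℝ) - A := by
    have : (A:ℝ) ≤ A' := by exact_mod_cast hAA
    linarith
  -- the sums
  obtain ⟨X, hX⟩ : ∃ X : ℝ, X = ∑ a ∈ Ico A A', SW f a L' ^ 2 := ⟨_, rfl⟩
  obtain ⟨Y, hY⟩ : ∃ Y : ℝ, Y = ∑ a ∈ Ico A A', SW f (a + L') (L - L') ^ 2 := ⟨_, rfl⟩
  obtain ⟨Z, hZ⟩ : ∃ Z : ℝ, Z = ∑ a ∈ Ico A A', SW f a L' * SW f (a + L') (L - L') := ⟨_, rfl⟩
  have hX0 : 0 ≤ X := by rw [hX]; exact sum_nonneg fun _ _ => sq_nonneg _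
  have hY0 : 0 ≤ Y := by rw [hY]; exact sum_nonneg fun _ _ => sq_nonneg _
  have hdec : ∑ a ∈ Ico A A', SW f a L ^ 2 = X + 2 * Z + Y := by
    rw [hX, hY, hZ, mul_sum, ← sum_add_distrib, ← sum_add_distrib]
    apply sum_congr rfl
    intro a _
    have e1 : SW f a L = SW f a L' + SW f (a + L') (L - L') := by
      rw [← SW_add]; congr 1; omega
    rw [e1]; ring
  -- the main term
  have hXe : X = ∑ a ∈ Ico A A', ((Wn a L').card : ℝ) + 2 * ∑ a ∈ Ico A A', es f (Wn a L') 2 := by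
    rw [hX, mul_sum, ← sum_add_distrib]
    apply sum_congr rfl
    intro a ha
    rw [mem_Ico] at ha
    apply sq_window
    intro n hn
    rw [mem_Wn] at hn
    exact hf n (by omega) (by rw [hpow]; omega) hn.2
  have hcard := card_sum r L' A A' hL'1 (by omega) hA hAA hA'
  have hes := hE A A' hA hAA hA'
  rw [← hκ, ← hN] at hcard
  rw [← hN] at hes
  have hXm : |X - κ * L' * ((A':ℝ) - A)| ≤ 6 * N * Real.sqrt L' + 2 * (τ * L' * N) := by
    rw [hXe]
    calc |∑ a ∈ Ico A A', ((Wn a L').card : ℝ) + 2 * ∑ a ∈ Ico A A', es f (Wn a L') 2 -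
          κ * L' * ((A':ℝ) - A)| =
        |(∑ a ∈ Ico A A', ((Wn a L').card : ℝ) - κ * L' * ((A':ℝ) - A)) +
          2 * ∑ a ∈ Ico A A', es f (Wn a L') 2| := by congr 1; ring
      _ ≤ |∑ a ∈ Ico A A', ((Wn a L').card : ℝ) - κ * L' * ((A':ℝ) - A)| +
          |2 * ∑ a ∈ Ico A A', es f (Wn a L') 2| := abs_add_le _ _
      _ ≤ _ := by
          rw [abs_mul, abs_of_pos (by norm_num : (0:ℝ) < 2)]
          linarith
  -- the size of the square root
  have hsq : Real.sqrt L' ≤ L * (1 / Real.sqrt (2 ^ s)) := by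
    have h1 : Real.sqrt L' * Real.sqrt (2 ^ s) ≤ L' := by
      calc Real.sqrt L' * Real.sqrt (2 ^ s) ≤ Real.sqrt L' * Real.sqrt L' :=
            mul_le_mul_of_nonneg_left (Real.sqrt_le_sqrt hL's') (Real.sqrt_nonneg _)
        _ = L' := Real.mul_self_sqrt hL'0.le
    rw [mul_one_div, le_div_iff₀ (Real.sqrt_pos.mpr h2s)]
    exact h1.trans hLLr
  have hsq1 : Real.sqrt L' ≤ L' := by
    rw [Real.sqrt_le_left hL'0.le]
    have : (1:ℝ) ≤ L' := by exact_mod_cast hL'1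
    nlinarith
  -- second moments
  obtain ⟨w, hw⟩ : ∃ w : ℝ, w = r * D / 2 ^ d := ⟨_, rfl⟩
  have hw0 : 0 ≤ w := by rw [hw]; positivity
  have hYb : Y ≤ w * N * L := by
    have h1 := SW_sq_sum f r (s - d) (L - L') (A + L') (A' + L') (by omega) (by omega) (by
      rw [hpow]; omega) (D * 2 ^ r) (by positivity) (fun i hi => hV i (by omega))
    have h2 : Y = ∑ b ∈ Ico (A + L') (A' + L'), SW f b (L - L') ^ 2 := by
      rw [hY, ← sum_Ico_add' (fun b => SW f b (L - L') ^ 2) A A' L']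
    rw [h2]
    refine h1.trans ?_
    rw [hp, ← hN, hw]
    have h3 : ((s - d : ℕ) : ℝ) ≤ r := by
      have : s - d ≤ r := by omega
      exact_mod_cast this
    calc ((s - d : ℕ) : ℝ) * (D * N * (2 ^ s / 2 ^ d)) ≤ r * (D * N * (L / 2 ^ d)) := by
          apply mul_le_mul h3 _ (by positivity) (by positivity)
          apply mul_le_mul_of_nonneg_left _ (by positivity)
          exact div_le_div_of_nonneg_right (hL's'.trans hLLr) (by positivity)
      _ = r * D / 2 ^ d * N * L := by ring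
  have hXb : X ≤ 9 * N * L := by
    have h1 := (abs_le.mp hXm).2
    have h2 : κ * L' * ((A':ℝ) - A) ≤ 2 / 3 * L' * N :=
      mul_le_mul (mul_le_mul_of_nonneg_right hκ1 hL'0.le) hAr hAr0 (by positivity)
    have h3 : 6 * N * Real.sqrt L' ≤ 6 * N * L' := mul_le_mul_of_nonneg_left hsq1 (by positivity)
    have h4 : τ * L' * N ≤ 1 * L' * N :=
      mul_le_mul_of_nonneg_right (mul_le_mul_of_nonneg_right hτ1 hL'0.le) hN0.le
    have h5 : N * L' ≤ N * L := mul_le_mul_of_nonneg_left hLLr hN0.le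
    nlinarith
  -- the mixed term
  have hZb : |Z| ≤ 3 * N * L * Real.sqrt w := by
    have h1 : Z ^ 2 ≤ X * Y := by
      rw [hX, hY, hZ]
      exact sum_mul_sq_le_sq_mul_sq _ _ _
    have h2 : Z ^ 2 ≤ (3 * N * L) ^ 2 * w := by
      refine h1.trans ?_
      calc X * Y ≤ (9 * N * L) * (w * N * L) := mul_le_mul hXb hYb hY0 (by positivity)
        _ = (3 * N * L) ^ 2 * w := by ring
    have h3 := Real.abs_le_sqrt h2
    rw [Real.sqrt_mul (by positivity), Real.sqrt_sq (by positivity)] at h3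
    exact h3
  -- the length
  have hLd' : κ * (L - L') * ((A':ℝ) - A) ≤ N * L * (1 / 2 ^ d) := by
    have h1 : (L:ℝ) - L' ≤ L * (1 / 2 ^ d) := by
      have h2 : (L:ℝ) < L' + 2 ^ (s - d) := by exact_mod_cast hLd
      rw [hp] at h2
      have h3 : (2:ℝ) ^ s / 2 ^ d ≤ L / 2 ^ d :=
        div_le_div_of_nonneg_right (hL's'.trans hLLr) (by positivity)
      rw [mul_one_div]
      linarith
    have h0 : 0 ≤ (L:ℝ) - L' := by linarith
    calc κ * (L - L') * ((A':ℝ) - A) ≤ 1 * (L * (1 / 2 ^ d)) * N := by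
          apply mul_le_mul _ hAr hAr0 (by positivity)
          exact mul_le_mul (by linarith) h1 h0 (by norm_num)
      _ = _ := by ring
  have hLd0 : 0 ≤ κ * (L - L') * ((A':ℝ) - A) :=
    mul_nonneg (mul_nonneg hκ0 (by linarith)) hAr0
  rw [← hκ, hdec, ← hN, ← hw]
  have e : X + 2 * Z + Y - κ * L * ((A':ℝ) - A) =
      (X - κ * L' * ((A':ℝ) - A)) + 2 * Z + Y - κ * (L - L') * ((A':ℝ) - A) := by ring
  rw [e]
  have a1 := abs_le.mp hXm
  have a2 := abs_le.mp hZb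
  have b1 : 6 * N * Real.sqrt L' ≤ 6 * N * (L * (1 / Real.sqrt (2 ^ s))) :=
    mul_le_mul_of_nonneg_left hsq (by positivity)
  have b2 : τ * L' * N ≤ τ * L * N :=
    mul_le_mul_of_nonneg_right (mul_le_mul_of_nonneg_left hLLr hτ0) hN0.le
  have c0 : 0 ≤ τ * L * N := by positivity
  have c1 : 0 ≤ N * L * (1 / 2 ^ d) := by positivity
  have c2 : 0 ≤ w * N * L := by positivity
  have c3 : 0 ≤ N * L * Real.sqrt w := by positivity
  have c4 : 0 ≤ N * (L * (1 / Real.sqrt (2 ^ s))) := by positivity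
  have e2 : 6 * (τ + 1 / Real.sqrt (2 ^ s) + Real.sqrt w + w + 1 / 2 ^ d) * L * N =
      6 * (τ * L * N) + 6 * (N * (L * (1 / Real.sqrt (2 ^ s)))) + 6 * (N * L * Real.sqrt w) +
        6 * (w * N * L) + 6 * (N * L * (1 / 2 ^ d)) := by ring
  rw [e2, abs_le]
  constructor
  · linarith [a1.1, a2.1]
  · linarith [a1.2, a2.2]

end Pool.Agent.L0h63.VR
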